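import Mathlib
import Pool.Agent.Results.MP_5155e4_gt.Counterexample

set_option autoImplicit false

open Set Filter Topology Cardinal TopologicalSpace

namespace Pool.Agent.Results.MP_5155e4_gt.KSigmaDelta

open Pool.Agent.Results.MP_5155e4_gt.Counterexample

attribute [local instance] Counterexample.topS Counterexample.discS

/-- `Z` is a `K_{σδ}`-space: it embeds into a compact Hausdorff space `K` as a set
`⋂ m, ⋃ n, A m n` with all the sets `A m n` closed in `K`. -/
def IsKSigmaDelta (Z : Type) [TopologicalSpace Z] : Prop :=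
  ∃ (K : Type) (_ : TopologicalSpace K) (A : ℕ → ℕ → Set K) (e : Z → K),
    CompactSpace K ∧ T2Space K ∧ (∀ m n, IsClosed (A m n)) ∧ IsEmbedding e ∧
      Set.range e = ⋂ m, ⋃ n, A m n

/-! ### The squashing map -/

theorem sq_abs (t : ℝ) : |t / (1 + |t|)| < 1 := by
  have h : (0 : ℝ) < 1 + |t| := by positivity
  rw [abs_div, abs_of_pos h, div_lt_one h]
  linarith

/-- The squashing map of the real line into `[-1,1]`. -/
noncomputable def phi (t : ℝ) : Set.Icc (-1 : ℝ) 1 := ⟨t / (1 + |t|), abs_le.mp (sq_abs t).le⟩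

theorem phi_val (t : ℝ) : (phi t : ℝ) = t / (1 + |t|) := rfl

theorem phi_inv {s : ℝ} (hs : |s| < 1) : (phi (s / (1 - |s|)) : ℝ) = s := by
  have h0 : (0 : ℝ) < 1 - |s| := by linarith
  rw [phi_val, abs_div, abs_of_pos h0]
  have h1 : 1 + |s| / (1 - |s|) = 1 / (1 - |s|) := by
    field_simp
    ring
  rw [h1]
  field_simp

theorem phi_strictMono : StrictMono phi := by
  intro a b hab
  change a / (1 + |a|) < b / (1 + |b|)
  have ha : (0 : ℝ) < 1 + |a| := by positivity
  have hb : (0 : ℝ) < 1 + |b| := by positivity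
  rw [div_lt_div_iff₀ ha hb]
  rcases abs_cases a with h | h <;> rcases abs_cases b with h' | h' <;> nlinarith [h.1, h.2, h'.1, h'.2]

theorem phi_range : Set.range phi = {s : Set.Icc (-1 : ℝ) 1 | |(s : ℝ)| < 1} := by
  ext s
  constructor
  · rintro ⟨t, rfl⟩
    exact sq_abs t
  · intro hs
    exact ⟨(s : ℝ) / (1 - |(s : ℝ)|), Subtype.ext (phi_inv hs)⟩

theorem phi_embedding : IsEmbedding phi := by
  have : OrdConnected (Set.range phi) := by
    rw [phi_range]
    constructor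
    intro x hx y hy z hz
    have hx' : |(x : ℝ)| < 1 := hx
    have hy' : |(y : ℝ)| < 1 := hy
    have h1 : (x : ℝ) ≤ z := hz.1
    have h2 : (z : ℝ) ≤ y := hz.2
    change |(z : ℝ)| < 1
    rw [abs_lt] at hx' hy' ⊢
    exact ⟨by linarith [hx'.1], by linarith [hy'.2]⟩
  exact phi_strictMono.isEmbedding_of_ordConnected this

/-- The embedding of `C_p(X)` into a cube. -/
noncomputable def ee (X : Type) [TopologicalSpace X] (f : Cp X) : X → Set.Icc (-1 : ℝ) 1 :=
  fun x => phi (f.1 x)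

theorem ee_embedding (X : Type) [TopologicalSpace X] : IsEmbedding (ee X) := by
  have h1 : IsEmbedding (Pi.map (fun _ : X => phi)) := IsEmbedding.piMap fun _ => phi_embedding
  exact h1.comp IsEmbedding.subtypeVal

/-! ### The closed pieces -/

/-- The compact sets of pairs. -/
def BB (κ : Type) (m : ℕ) (i : Σ n : ℕ, (Fin n → ℕ) × ℕ) :
    Set ((YY κ → Set.Icc (-1 : ℝ) 1) × (Fin i.1 → OnePoint (S κ))) :=
  {p | (∀ j, Lab (p.2 j) (i.2.1 j)) ∧
    (∀ y : YY κ, y.1 ∈ KK κ m → ∀ y' : YY κ, (∀ j, ev (p.2 j) y = ev (p.2 j) y') →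
        |(p.1 y : ℝ) - p.1 y'| ≤ 1 / ((m : ℝ) + 1)) ∧
    (∀ y : YY κ, y.1 ∈ KK κ m → |(p.1 y : ℝ)| ≤ 1 - 1 / ((i.2.2 : ℝ) + 2))}

theorem BB_closed (κ : Type) (m : ℕ) (i : Σ n : ℕ, (Fin n → ℕ) × ℕ) : IsClosed (BB κ m i) := by
  have cf : ∀ y : YY κ, Continuous fun p : (YY κ → Set.Icc (-1 : ℝ) 1) × (Fin i.1 → OnePoint (S κ)) =>
      (p.1 y : ℝ) := fun y => by fun_prop
  have ce : ∀ j, Continuous fun p : (YY κ → Set.Icc (-1 : ℝ) 1) × (Fin i.1 → OnePoint (S κ)) =>
      p.2 j := fun j => by fun_prop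
  rw [← isOpen_compl_iff, isOpen_iff_mem_nhds]
  intro p₀ hp₀
  by_cases ha : ∀ j, Lab (p₀.2 j) (i.2.1 j)
  · by_cases hb : ∀ y : YY κ, y.1 ∈ KK κ m → ∀ y' : YY κ,
      (∀ j, ev (p₀.2 j) y = ev (p₀.2 j) y') → |(p₀.1 y : ℝ) - p₀.1 y'| ≤ 1 / ((m : ℝ) + 1)
    · have hc : ¬ ∀ y : YY κ, y.1 ∈ KK κ m → |(p₀.1 y : ℝ)| ≤ 1 - 1 / ((i.2.2 : ℝ) + 2) :=
        fun hc => hp₀ ⟨ha, hb, hc⟩
      push Not at hc
      obtain ⟨y, hy, hlt⟩ := hc
      have h1 : ∀ᶠ p : (YY κ → Set.Icc (-1 : ℝ) 1) × (Fin i.1 → OnePoint (S κ)) in 𝓝 p₀,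
          1 - 1 / ((i.2.2 : ℝ) + 2) < |(p.1 y : ℝ)| :=
        ((cf y).abs.tendsto p₀).eventually (lt_mem_nhds hlt)
      filter_upwards [h1] with p hp1 hD
      have h3 := hD.2.2 y hy
      linarith
    · push Not at hb
      obtain ⟨y, hy, y', hyy', hlt⟩ := hb
      have h1 : ∀ᶠ p : (YY κ → Set.Icc (-1 : ℝ) 1) × (Fin i.1 → OnePoint (S κ)) in 𝓝 p₀,
          1 / ((m : ℝ) + 1) < |(p.1 y : ℝ) - p.1 y'| :=
        ((((cf y).sub (cf y')).abs).tendsto p₀).eventually (lt_mem_nhds hlt)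
      have h2 : ∀ᶠ p : (YY κ → Set.Icc (-1 : ℝ) 1) × (Fin i.1 → OnePoint (S κ)) in 𝓝 p₀, ∀ j,
          (Lab (p.2 j) (i.2.1 j) → ev (p.2 j) y = ev (p₀.2 j) y) ∧
          (Lab (p.2 j) (i.2.1 j) → ev (p.2 j) y' = ev (p₀.2 j) y') := by
        rw [Filter.eventually_all]
        intro j
        have h3 := ((ce j).tendsto p₀).eventually (ev_eventually y (p₀.2 j) (i.2.1 j))
        have h4 := ((ce j).tendsto p₀).eventually (ev_eventually y' (p₀.2 j) (i.2.1 j))
        filter_upwards [h3, h4] with p h5 h6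
        exact ⟨h5, h6⟩
      filter_upwards [h1, h2] with p hp1 hp2 hD
      have h3 := hD.2.1 y hy y' ?_
      · linarith
      · intro j
        obtain ⟨h4, h5⟩ := hp2 j
        rw [h4 (hD.1 j), h5 (hD.1 j)]
        exact hyy' j
  · push Not at ha
    obtain ⟨j, hj⟩ := ha
    have h2 : {z : OnePoint (S κ) | Lab z (i.2.1 j)}ᶜ ∈ 𝓝 (p₀.2 j) :=
      (isClosed_Lab _).isOpen_compl.mem_nhds hj
    filter_upwards [((ce j).tendsto p₀).eventually h2] with p hp1 hD
    exact hp1 (hD.1 j)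

/-- The projections of the compact sets. -/
def AA (κ : Type) (m : ℕ) (i : Σ n : ℕ, (Fin n → ℕ) × ℕ) : Set (XX κ → Set.Icc (-1 : ℝ) 1) :=
  (fun p x => p.1 (inc x)) '' BB κ m i

theorem AA_closed (κ : Type) (m : ℕ) (i : Σ n : ℕ, (Fin n → ℕ) × ℕ) : IsClosed (AA κ m i) := by
  have h1 : IsCompact (BB κ m i) := (BB_closed κ m i).isCompact
  have h2 : Continuous fun (p : (YY κ → Set.Icc (-1 : ℝ) 1) × (Fin i.1 → OnePoint (S κ)))
      (x : XX κ) => p.1 (inc x) := by fun_prop
  exact (h1.image h2).isClosed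

theorem range_ee {κ : Type} (hκ : ¬ (Set.univ : Set κ).Countable) :
    Set.range (ee (XX κ)) = ⋂ m, ⋃ i, AA κ m i := by
  classical
  apply Set.Subset.antisymm
  · rintro _ ⟨h, rfl⟩
    refine Set.mem_iInter.mpr fun m => ?_
    obtain ⟨G, hG, hGh⟩ := exists_extension hκ h.1 h.2
    let F : YY κ → ℝ := fun y => phi (G y)
    have hF : Continuous F :=
      continuous_subtype_val.comp (phi_embedding.continuous.comp hG)
    have hF1 : ∀ y, |F y| < 1 := fun y => sq_abs (G y)
    obtain ⟨J, hJ⟩ := unif F hF m (1 / ((m : ℝ) + 1)) (by positivity)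
    obtain ⟨N, hN⟩ := bound F hF hF1 m
    refine Set.mem_iUnion.mpr ⟨⟨J.card, fun j => (J.equivFin.symm j).1.lab, N⟩, ?_⟩
    refine ⟨(fun y => phi (G y), fun j => ((J.equivFin.symm j).1 : OnePoint (S κ))),
      ⟨?_, ?_, ?_⟩, ?_⟩
    · intro j
      exact Or.inr ⟨_, rfl, rfl⟩
    · intro y hy y' hyy'
      refine hJ y hy y' fun a ha => ?_
      have h1 := hyy' (J.equivFin ⟨a, ha⟩)
      simp only [Equiv.symm_apply_apply] at h1
      exact h1
    · intro y hy
      exact hN y hy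
    · funext x
      change phi (G (inc x)) = phi (h.1 x)
      rw [hGh x]
  · intro f hf
    rw [Set.mem_iInter] at hf
    have hf' : ∀ m, ∃ i, ∃ p ∈ BB κ m i, ∀ x, p.1 (inc x) = f x := by
      intro m
      obtain ⟨i, p, hp, hpf⟩ := Set.mem_iUnion.mp (hf m)
      exact ⟨i, p, hp, fun x => congrFun hpf x⟩
    have hlt : ∀ x, |(f x : ℝ)| < 1 := by
      intro x
      obtain ⟨m, hm⟩ := x.2.1
      obtain ⟨i, p, hp, hpf⟩ := hf' m
      have h1 := hp.2.2 (inc x) hm
      rw [hpf x] at h1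
      have h2 : (0 : ℝ) < 1 / ((i.2.2 : ℝ) + 2) := by positivity
      linarith
    have hcont : Continuous fun x => (f x : ℝ) := by
      rw [continuous_iff_continuousAt]
      intro x₀
      rw [Metric.continuousAt_iff']
      intro ε hε
      obtain ⟨m₀, hm₀⟩ := x₀.2.1
      obtain ⟨m₁, hm₁⟩ := exists_nat_one_div_lt hε
      have hx₀ : x₀.1 ∈ KK κ (max m₀ m₁) := KK_mono (le_max_left _ _) hm₀
      obtain ⟨i, p, hp, hpf⟩ := hf' (max m₀ m₁)
      have h1 : ∀ᶠ x in 𝓝 x₀, ∀ j, ev (p.2 j) (inc x₀) = ev (p.2 j) (inc x) := by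
        rw [Filter.eventually_all]
        intro j
        generalize p.2 j = z
        induction z using OnePoint.rec with
        | infty => exact Filter.Eventually.of_forall fun y => rfl
        | coe a =>
          exact (mem_nhds_X x₀ _).mpr ⟨{a}, fun t ht => (ht a (by simp)).symm⟩
      filter_upwards [h1] with x hx
      have h2 := hp.2.1 (inc x₀) hx₀ (inc x) hx
      rw [hpf, hpf] at h2
      rw [Real.dist_eq, abs_sub_comm]
      have h3 : (1 : ℝ) / (((max m₀ m₁ : ℕ) : ℝ) + 1) ≤ 1 / ((m₁ : ℝ) + 1) := by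
        apply one_div_le_one_div_of_le
        · positivity
        · have : (m₁ : ℝ) ≤ ((max m₀ m₁ : ℕ) : ℝ) := by exact_mod_cast le_max_right _ _
          linarith
      linarith
    refine ⟨⟨fun x => (f x : ℝ) / (1 - |(f x : ℝ)|), ?_⟩, ?_⟩
    · refine hcont.div (continuous_const.sub hcont.abs) fun x => ?_
      have := hlt x
      intro h
      linarith
    · funext x
      exact Subtype.ext (phi_inv (hlt x))

theorem ksd_XX {κ : Type} (hκ : ¬ (Set.univ : Set κ).Countable) : IsKSigmaDelta (Cp (XX κ)) := by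
  obtain ⟨s, hs⟩ := exists_surjective_nat (Σ n : ℕ, (Fin n → ℕ) × ℕ)
  refine ⟨XX κ → Set.Icc (-1 : ℝ) 1, inferInstance, fun m n => AA κ m (s n), ee (XX κ),
    inferInstance, inferInstance, fun m n => AA_closed κ m (s n), ee_embedding _, ?_⟩
  rw [range_ee hκ]
  refine Set.iInter_congr fun m => ?_
  exact (hs.iUnion_comp fun i => AA κ m i).symm

/-! ### `K_{σδ}`-spaces are Lindelöf `Σ`-spaces -/

theorem IsKSigmaDelta.lindelofSigma {Z : Type} [TopologicalSpace Z] (h : IsKSigmaDelta Z) :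
    IsLindelofSigma Z := by
  obtain ⟨K, tK, A, e, hK, hT, hA, he, hr⟩ := h
  have hmem : ∀ p : {p : K × (ℕ → ℕ) // ∀ m, p.1 ∈ A m (p.2 m)}, ∃ z, e z = p.1.1 := by
    intro p
    have : p.1.1 ∈ Set.range e := by
      rw [hr]
      exact Set.mem_iInter.mpr fun m => Set.mem_iUnion.mpr ⟨p.1.2 m, p.2 m⟩
    exact this
  choose g hg using hmem
  refine ⟨K, ℕ → ℕ, tK, inferInstance, {p | ∀ m, p.1 ∈ A m (p.2 m)}, g, hK, hT, inferInstance,
    inferInstance, ?_, ?_, ?_⟩
  · rw [← isOpen_compl_iff, isOpen_iff_mem_nhds]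
    intro p₀ hp₀
    have hp₀' : ¬ ∀ m, p₀.1 ∈ A m (p₀.2 m) := hp₀
    push Not at hp₀'
    obtain ⟨m, hm⟩ := hp₀'
    have h1 : ∀ᶠ p : K × (ℕ → ℕ) in 𝓝 p₀, p.1 ∈ (A m (p₀.2 m))ᶜ :=
      continuous_fst.continuousAt.preimage_mem_nhds ((hA _ _).isOpen_compl.mem_nhds hm)
    have h2 : ∀ᶠ p : K × (ℕ → ℕ) in 𝓝 p₀, p.2 m = p₀.2 m := by
      have h3 : Continuous fun p : K × (ℕ → ℕ) => p.2 m := by fun_prop
      have : {p₀.2 m} ∈ 𝓝 (p₀.2 m) := by simp
      exact h3.continuousAt.preimage_mem_nhds this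
    filter_upwards [h1, h2] with p hp1 hp2 hD
    have h4 := hD m
    rw [hp2] at h4
    exact hp1 h4
  · rw [he.continuous_iff]
    have : e ∘ g = fun p => p.1.1 := funext hg
    rw [this]
    exact continuous_fst.comp continuous_subtype_val
  · intro z
    have hz : e z ∈ ⋂ m, ⋃ n, A m n := by rw [← hr]; exact ⟨z, rfl⟩
    have hz' : ∀ m, ∃ n, e z ∈ A m n := fun m => Set.mem_iUnion.mp (Set.mem_iInter.mp hz m)
    choose s hs using hz'
    exact ⟨⟨(e z, s), hs⟩, he.injective (hg _)⟩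

/-! ### The cardinality of `X` -/

/-- The arities of the nodes. -/
def Ar (κ : Type) (a : κ × ℕ × Option (ℕ → ℕ)) : Type :=
  match a.2.2 with
  | none => Empty
  | some _ => ℕ × ℕ

/-- The index set as a type of well-founded trees. -/
def toW {κ : Type} : S κ → WType (Ar κ)
  | .base k l => WType.mk (k, l, none) Empty.elim
  | .node k l len σ => WType.mk (k, l, some len) (fun p : ℕ × ℕ => toW (σ p.1 p.2))

theorem toW_inj {κ : Type} : ∀ a b : S κ, toW a = toW b → a = b := by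
  intro a
  induction a with
  | base k l =>
    intro b h
    cases b with
    | base k' l' =>
      have h1 : (k, l, (none : Option (ℕ → ℕ))) = (k', l', none) := (WType.mk.inj h).1
      simp only [Prod.mk.injEq] at h1
      rw [h1.1, h1.2.1]
    | node k' l' len' σ' =>
      have h1 : (k, l, (none : Option (ℕ → ℕ))) = (k', l', some len') := (WType.mk.inj h).1
      simp at h1
  | node k l len σ ih =>
    intro b h
    cases b with
    | base k' l' =>
      have h1 : (k, l, some len) = (k', l', (none : Option (ℕ → ℕ))) := (WType.mk.inj h).1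
      simp at h1
    | node k' l' len' σ' =>
      obtain ⟨h1, h2⟩ := WType.mk.inj h
      have h1' : (k, l, some len) = (k', l', some len') := h1
      simp only [Prod.mk.injEq, Option.some.injEq] at h1'
      obtain ⟨rfl, rfl, rfl⟩ := h1'
      have h3 : (fun p : ℕ × ℕ => toW (σ p.1 p.2)) = (fun p : ℕ × ℕ => toW (σ' p.1 p.2)) :=
        eq_of_heq h2
      have h4 : σ = σ' := by
        funext i j
        exact ih i j _ (congrFun h3 (i, j))
      rw [h4]

section card

variable {κ : Type} (h1 : 2 ≤ #κ) (h : #κ ^ ℵ₀ = #κ)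

include h1 h

theorem cont_le : 𝔠 ≤ #κ := by
  rw [← h, ← Cardinal.two_power_aleph0]
  exact Cardinal.power_le_power_right h1

theorem not_count : ¬ (Set.univ : Set κ).Countable := by
  intro hc
  have h2 : #κ ≤ ℵ₀ := by
    rw [← Cardinal.mk_univ]
    exact Cardinal.le_aleph0_iff_set_countable.mpr hc
  exact absurd ((cont_le h1 h).trans h2) (not_le.mpr Cardinal.aleph0_lt_continuum)

theorem mk_S : #(S κ) ≤ #κ := by
  have hc := cont_le h1 h
  have h0 : ℵ₀ ≤ #κ := Cardinal.aleph0_le_continuum.trans hc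
  have e1 : #(S κ) ≤ #(WType (Ar κ)) :=
    Cardinal.mk_le_of_injective (f := toW) fun a b hab => toW_inj a b hab
  refine e1.trans (WType.cardinalMk_le_of_le ?_)
  have e2 : ∀ a : κ × ℕ × Option (ℕ → ℕ), #κ ^ #(Ar κ a) ≤ #κ := by
    rintro ⟨k, l, o⟩
    cases o with
    | none =>
      have : #(Ar κ (k, l, none)) = 0 := by
        change #Empty = 0
        exact Cardinal.mk_eq_zero _
      rw [this, Cardinal.power_zero]
      exact one_le_two.trans h1
    | some len =>
      have : #(Ar κ (k, l, some len)) = ℵ₀ := by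
        change #(ℕ × ℕ) = ℵ₀
        exact Cardinal.mk_eq_aleph0 _
      rw [this, h]
  calc (Cardinal.sum fun a : κ × ℕ × Option (ℕ → ℕ) => #κ ^ #(Ar κ a))
      ≤ Cardinal.sum fun _ : κ × ℕ × Option (ℕ → ℕ) => #κ := Cardinal.sum_le_sum _ _ e2
    _ = #(κ × ℕ × Option (ℕ → ℕ)) * #κ := Cardinal.sum_const' _ _
    _ ≤ #κ * #κ := by
        refine mul_le_mul_left ?_ _
        have e3 : #(Option (ℕ → ℕ)) ≤ #κ := by
          rw [Cardinal.mk_option]
          refine (Cardinal.add_le_max _ _).trans ?_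
          have e4 : #(ℕ → ℕ) = 𝔠 := by
            rw [← Cardinal.power_def, Cardinal.mk_nat, Cardinal.aleph0_power_aleph0]
          rw [e4]
          exact max_le (max_le hc (one_le_two.trans h1)) h0
        rw [Cardinal.mk_prod, Cardinal.mk_prod, Cardinal.lift_id, Cardinal.lift_id,
          Cardinal.lift_id, Cardinal.lift_id, Cardinal.mk_nat]
        calc #κ * (ℵ₀ * #(Option (ℕ → ℕ))) ≤ #κ * (#κ * #κ) := by
              gcongr
          _ = #κ := by rw [Cardinal.mul_eq_self h0, Cardinal.mul_eq_self h0]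
    _ = #κ := Cardinal.mul_eq_self h0

theorem mk_XX_eq : #(XX κ) = #κ := by
  apply le_antisymm _ mk_XX
  have h2 : ∀ x : XX κ, ∃ f : ℕ → S κ, {a | x.1 a = true} = Set.range f := by
    intro x
    obtain ⟨m, hm⟩ := x.2.1
    exact (supp_countable hm).exists_eq_range x.2.2.nonempty
  choose f hf using h2
  have h3 : Function.Injective f := by
    intro x y hxy
    have h4 : {a | x.1 a = true} = {a | y.1 a = true} := by rw [hf x, hf y, hxy]
    apply Subtype.ext
    funext a
    have h5 : a ∈ {a | x.1 a = true} ↔ a ∈ {a | y.1 a = true} := by rw [h4]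
    rw [Bool.eq_iff_iff]
    exact h5
  calc #(XX κ) ≤ #(ℕ → S κ) := Cardinal.mk_le_of_injective h3
    _ = #(S κ) ^ ℵ₀ := by rw [← Cardinal.power_def, Cardinal.mk_nat]
    _ ≤ #κ ^ ℵ₀ := Cardinal.power_le_power_right (mk_S h1 h)
    _ = #κ := h

end card

/-! ### Clopen bases -/

theorem t35_of_clopen {X : Type} [TopologicalSpace X] [T0Space X]
    (h : IsTopologicalBasis {U : Set X | IsClopen U}) : T35Space X := by
  classical
  have : CompletelyRegularSpace X := by
    constructor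
    intro x C hC hx
    obtain ⟨U, hU, hxU, hUC⟩ := h.exists_subset_of_mem_open (a := x) (u := Cᶜ) hx hC.isOpen_compl
    have hU' : IsClopen U := hU
    refine ⟨fun y => if y ∈ U then 0 else 1, ?_, ?_, ?_⟩
    · refine Continuous.if ?_ continuous_const continuous_const
      intro a ha
      have h1 : frontier U = ∅ := hU'.frontier_eq
      have h2 : a ∈ frontier U := ha
      rw [h1] at h2
      exact absurd h2 (Set.notMem_empty a)
    · simp [hxU]
    · intro y hy
      have : y ∉ U := fun hyU => hUC hyU hy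
      simp [this]
  exact {}

theorem basis_XX (κ : Type) : IsTopologicalBasis {U : Set (XX κ) | IsClopen U} := by
  refine isTopologicalBasis_of_isOpen_of_nhds (fun U hU => IsClopen.isOpen hU) ?_
  intro x U hx hU
  obtain ⟨G, hG⟩ := (mem_nhds_X x U).mp (hU.mem_nhds hx)
  refine ⟨{t | ∀ a ∈ G, t.1 a = x.1 a}, ?_, fun a _ => rfl, fun t ht => hG t ht⟩
  have h1 : {t : XX κ | ∀ a ∈ G, t.1 a = x.1 a} = ⋂ a ∈ G, (fun t : XX κ => t.1 a) ⁻¹' {x.1 a} := by
    ext t
    simp
  change IsClopen {t : XX κ | ∀ a ∈ G, t.1 a = x.1 a}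
  rw [h1]
  exact isClopen_biInter_finset fun a _ => (isClopen_discrete _).preimage
    ((continuous_apply a).comp continuous_subtype_val)

theorem basis_YY (κ : Type) : IsTopologicalBasis {U : Set (YY κ) | IsClopen U} := by
  refine isTopologicalBasis_of_isOpen_of_nhds (fun U hU => IsClopen.isOpen hU) ?_
  intro x U hx hU
  obtain ⟨G, hG⟩ := (mem_nhds_Y x U).mp (hU.mem_nhds hx)
  refine ⟨{t | ∀ a ∈ G, t.1 a = x.1 a}, ?_, fun a _ => rfl, fun t ht => hG t ht⟩
  have h1 : {t : YY κ | ∀ a ∈ G, t.1 a = x.1 a} = ⋂ a ∈ G, (fun t : YY κ => t.1 a) ⁻¹' {x.1 a} := by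
    ext t
    simp
  change IsClopen {t : YY κ | ∀ a ∈ G, t.1 a = x.1 a}
  rw [h1]
  exact isClopen_biInter_finset fun a _ => (isClopen_discrete _).preimage
    ((continuous_apply a).comp continuous_subtype_val)

theorem sigmaCompact_YY (κ : Type) : SigmaCompactSpace (YY κ) := by
  refine ⟨⟨fun m => {y | y.1 ∈ KK κ m}, fun m => ?_, ?_⟩⟩
  · rw [IsEmbedding.subtypeVal.isCompact_iff]
    have : (Subtype.val '' {y : YY κ | y.1 ∈ KK κ m}) = KK κ m := by
      ext t
      constructor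
      · rintro ⟨y, hy, rfl⟩
        exact hy
      · intro ht
        exact ⟨⟨t, m, ht⟩, ht, rfl⟩
    rw [this]
    exact KK_compact m
  · refine Set.eq_univ_of_forall fun y => ?_
    obtain ⟨m, hm⟩ := y.2
    exact Set.mem_iUnion.mpr ⟨m, hm⟩

/-! ### Countable sums -/

section sums

variable {X : ℕ → Type} [∀ n, TopologicalSpace (X n)]

theorem basis_sigma (h : ∀ n, IsTopologicalBasis {U : Set (X n) | IsClopen U}) :
    IsTopologicalBasis {U : Set (Σ n, X n) | IsClopen U} := by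
  refine isTopologicalBasis_of_isOpen_of_nhds (fun U hU => IsClopen.isOpen hU) ?_
  rintro ⟨n, x⟩ U hx hU
  obtain ⟨V, hV, hxV, hVU⟩ := (h n).exists_subset_of_mem_open (a := x) (u := Sigma.mk n ⁻¹' U) hx
    (hU.preimage continuous_sigmaMk)
  have hV' : IsClopen V := hV
  refine ⟨Sigma.mk n '' V, ⟨isClosedMap_sigmaMk _ hV'.isClosed, isOpenMap_sigmaMk _ hV'.isOpen⟩,
    ⟨x, hxV, rfl⟩, ?_⟩
  rintro _ ⟨y, hy, rfl⟩
  exact hVU hy

theorem fc_sigma (h : ∀ n, FirstCountableTopology (X n)) : FirstCountableTopology (Σ n, X n) := by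
  constructor
  rintro ⟨n, x⟩
  rw [Sigma.nhds_mk]
  infer_instance

theorem ksd_sigma (h : ∀ n, IsKSigmaDelta (Cp (X n))) : IsKSigmaDelta (Cp (Σ n, X n)) := by
  choose K tK A e hK hT hA he hr using h
  let R : Cp (Σ n, X n) → (∀ n, Cp (X n)) :=
    fun f n => ⟨fun x => f.1 ⟨n, x⟩, f.2.comp continuous_sigmaMk⟩
  let D : (∀ n, Cp (X n)) → ((Σ n, X n) → ℝ) := fun g p => (g p.1).1 p.2
  have hD : Continuous D := continuous_pi fun p =>
    (continuous_apply p.2).comp (continuous_subtype_val.comp (continuous_apply p.1))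
  have hRc : Continuous R := by
    refine continuous_pi fun n => ?_
    have h1 : Continuous fun (f : Cp (Σ n, X n)) (x : X n) => f.1 ⟨n, x⟩ :=
      continuous_pi fun x => (continuous_apply (⟨n, x⟩ : Σ n, X n)).comp continuous_subtype_val
    exact h1.subtype_mk fun f => f.2.comp continuous_sigmaMk
  have hDR : IsEmbedding (D ∘ R) := IsEmbedding.subtypeVal
  have hR : IsEmbedding R := IsEmbedding.of_comp hRc hD hDR
  have hRs : Function.Surjective R := by
    intro g
    exact ⟨⟨D g, continuous_sigma fun n => (g n).2⟩, rfl⟩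
  refine ⟨∀ n, K n, inferInstance, fun m i => {k | k m.unpair.1 ∈ A m.unpair.1 m.unpair.2 i},
    fun f n => e n (R f n), inferInstance, inferInstance, ?_, ?_, ?_⟩
  · intro m i
    exact (hA _ _ _).preimage (continuous_apply m.unpair.1)
  · exact (IsEmbedding.piMap he).comp hR
  · ext k
    constructor
    · rintro ⟨f, rfl⟩
      refine Set.mem_iInter.mpr fun m => ?_
      have h1 : e m.unpair.1 (R f m.unpair.1) ∈ Set.range (e m.unpair.1) := ⟨_, rfl⟩
      rw [hr] at h1
      obtain ⟨i, hi⟩ := Set.mem_iUnion.mp (Set.mem_iInter.mp h1 m.unpair.2)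
      exact Set.mem_iUnion.mpr ⟨i, hi⟩
    · intro hk
      have h1 : ∀ n, k n ∈ Set.range (e n) := by
        intro n
        rw [hr n]
        refine Set.mem_iInter.mpr fun m => ?_
        obtain ⟨i, hi⟩ := Set.mem_iUnion.mp (Set.mem_iInter.mp hk (Nat.pair n m))
        have hi' : k (Nat.pair n m).unpair.1 ∈
          A (Nat.pair n m).unpair.1 (Nat.pair n m).unpair.2 i := hi
        rw [Nat.unpair_pair] at hi'
        exact Set.mem_iUnion.mpr ⟨i, hi'⟩
      choose g hg using h1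
      obtain ⟨f, hf⟩ := hRs g
      refine ⟨f, funext fun n => ?_⟩
      rw [← hg n, ← hf]

end sums

theorem inc_embedding (κ : Type) : IsEmbedding (inc (κ := κ)) :=
  ⟨inc_inducing, fun _ _ hxy => Subtype.ext (congrArg (fun z : YY κ => z.1) hxy)⟩

/-- **Theorem.** (1) Let `lam` be the supremum of a sequence of cardinals `lam n ≥ 2` such that
`lam n ^ ℵ₀ = lam n` (for example a single such cardinal). Then there is a Tychonoff
zero-dimensional (it has a base of clopen sets) first countable space `X` of cardinality `lam` (all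
points of `X` are then `G_δ`) such that `C_p(X)` is a `K_{σδ}`-space, hence a Lindelöf `Σ`-space;
moreover `X` is dense and `C`-embedded in a `σ`-compact Tychonoff space.
(2) There are arbitrarily large cardinals `lam ≥ 2` with `lam ^ ℵ₀ = lam`, so no cardinal bounds the
size of such spaces `X`. -/
theorem result :
    (∀ lam : ℕ → Cardinal.{0}, (∀ n, 2 ≤ lam n ∧ lam n ^ ℵ₀ = lam n) →
      ∃ (X : Type) (_ : TopologicalSpace X), #X = (⨆ n, lam n) ∧
        T35Space X ∧ IsTopologicalBasis {U : Set X | IsClopen U} ∧ FirstCountableTopology X ∧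
        (∀ x : X, IsGδ {x}) ∧ IsKSigmaDelta (Cp X) ∧ IsLindelofSigma (Cp X) ∧
        ∃ (Y : Type) (_ : TopologicalSpace Y) (i : X → Y), T35Space Y ∧ SigmaCompactSpace Y ∧
          IsEmbedding i ∧ DenseRange i ∧
          ∀ g : X → ℝ, Continuous g → ∃ G : Y → ℝ, Continuous G ∧ ∀ x, G (i x) = g x) ∧
    (∀ mu : Cardinal.{0}, ∃ lam : Cardinal.{0}, mu < lam ∧ 2 ≤ lam ∧ lam ^ ℵ₀ = lam) := by
  constructor
  · intro lam hlam
    let κ : ℕ → Type := fun n => (lam n).out
    have hκ : ∀ n, #(κ n) = lam n := fun n => Cardinal.mk_out _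
    have h2 : ∀ n, 2 ≤ #(κ n) := fun n => by rw [hκ n]; exact (hlam n).1
    have hp : ∀ n, #(κ n) ^ ℵ₀ = #(κ n) := fun n => by rw [hκ n]; exact (hlam n).2
    have hnc : ∀ n, ¬ (Set.univ : Set (κ n)).Countable := fun n => not_count (h2 n) (hp n)
    have hb : IsTopologicalBasis {U : Set (Σ n, XX (κ n)) | IsClopen U} :=
      basis_sigma fun n => basis_XX (κ n)
    have hbY : IsTopologicalBasis {U : Set (Σ n, YY (κ n)) | IsClopen U} :=
      basis_sigma fun n => basis_YY (κ n)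
    have hfc : FirstCountableTopology (Σ n, XX (κ n)) := fc_sigma fun n => fc_XX
    have hk : IsKSigmaDelta (Cp (Σ n, XX (κ n))) := ksd_sigma fun n => ksd_XX (hnc n)
    refine ⟨Σ n, XX (κ n), inferInstance, ?_, t35_of_clopen hb, hb, hfc,
      fun x => IsGδ.singleton x, hk, hk.lindelofSigma, Σ n, YY (κ n), inferInstance,
      Sigma.map id fun n => inc, t35_of_clopen hbY, ?_, ?_, ?_, ?_⟩
    · have h3 : ∀ n, #(XX (κ n)) = lam n := fun n => (mk_XX_eq (h2 n) (hp n)).trans (hκ n)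
      have h4 : #(Σ n, XX (κ n)) = Cardinal.sum lam := by
        rw [Cardinal.mk_sigma]
        exact congrArg Cardinal.sum (funext h3)
      rw [h4]
      refine Cardinal.sum_eq_iSup_of_mk_le_iSup ?_ ?_
      · rw [Cardinal.mk_nat]
      · rw [Cardinal.mk_nat]
        have h5 : lam 0 ≤ ⨆ n, lam n := le_ciSup Cardinal.bddAbove_of_small 0
        have h6 : 𝔠 ≤ lam 0 := by
          have := cont_le (h2 0) (hp 0)
          rwa [hκ 0] at this
        exact (Cardinal.aleph0_le_continuum.trans h6).trans h5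
    · have : ∀ n, SigmaCompactSpace (YY (κ n)) := fun n => sigmaCompact_YY (κ n)
      infer_instance
    · exact (isEmbedding_sigmaMap Function.injective_id).mpr fun n => inc_embedding (κ n)
    · rintro ⟨n, y⟩
      have h1 : y ∈ closure (Set.range (inc (κ := κ n))) := inc_dense (hnc n) y
      have h3 : (⟨n, y⟩ : Σ n, YY (κ n)) ∈ Sigma.mk n '' closure (Set.range (inc (κ := κ n))) :=
        ⟨y, h1, rfl⟩
      refine closure_mono ?_ (image_closure_subset_closure_image continuous_sigmaMk h3)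
      rintro _ ⟨_, ⟨x, rfl⟩, rfl⟩
      exact ⟨⟨n, x⟩, rfl⟩
    · intro g hg
      have h1 : ∀ n, ∃ G : YY (κ n) → ℝ, Continuous G ∧ ∀ x, G (inc x) = g ⟨n, x⟩ := fun n =>
        exists_extension (hnc n) (fun x => g ⟨n, x⟩) (hg.comp continuous_sigmaMk)
      choose G hG hGg using h1
      exact ⟨fun p => G p.1 p.2, continuous_sigma hG, fun x => hGg x.1 x.2⟩
  · intro mu
    refine ⟨2 ^ (mu + ℵ₀), ?_, ?_, ?_⟩
    · calc mu ≤ mu + ℵ₀ := self_le_add_right _ _
        _ < 2 ^ (mu + ℵ₀) := Cardinal.cantor _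
    · calc (2 : Cardinal) ≤ ℵ₀ := by exact_mod_cast (Cardinal.natCast_lt_aleph0 (n := 2)).le
        _ ≤ mu + ℵ₀ := self_le_add_left _ _
        _ ≤ 2 ^ (mu + ℵ₀) := (Cardinal.cantor _).le
    · rw [← Cardinal.power_mul]
      congr 1
      exact Cardinal.mul_aleph0_eq (self_le_add_left _ _)

end Pool.Agent.Results.MP_5155e4_gt.KSigmaDelta
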